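import Mathlib

set_option autoImplicit false

namespace Pool.Agent.H.MP_042718_an

open Complex Matrix
open scoped Matrix.Norms.L2Operator Kronecker

section
variable {ι κ J : Type} [Fintype ι] [Fintype κ] [Fintype J] [DecidableEq ι] [DecidableEq κ]

theorem mk (d : J → ℝ) (hd : ∀ j, 0 ≤ d j) (W : J → Matrix ι κ ℂ) (X : J → Matrix ι ι ℂ) {C : ℝ}
    (hC : 0 ≤ C) (hX : ∀ j, ‖X j‖ ≤ C) (hW : ∑ j, (d j : ℂ) • ((W j)ᴴ * W j) = 1) :
    ‖∑ j, (d j : ℂ) • ((W j)ᴴ * X j * W j)‖ ≤ C := by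
  have key : ∀ (Y : J → Matrix ι ι ℂ) (ξ η : EuclideanSpace ℂ κ),
      (inner ℂ (toEuclideanLin (∑ j, (d j : ℂ) • ((W j)ᴴ * Y j * W j)) ξ) η).re =
        ∑ j, d j * (inner ℂ (toEuclideanLin (Y j) (toEuclideanLin (W j) ξ))
          (toEuclideanLin (W j) η)).re := by
    intro Y ξ η
    rw [map_sum, LinearMap.sum_apply, sum_inner, re_sum]
    refine Finset.sum_congr rfl fun j _ => ?_
    rw [map_smul, LinearMap.smul_apply, inner_smul_left, conj_ofReal, re_ofReal_mul,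
      toLpLin_mul 2 2 2, toLpLin_mul 2 2 2, toEuclideanLin_conjTranspose_eq_adjoint]
    simp [LinearMap.adjoint_inner_left]
  have k1 : ∀ ξ : EuclideanSpace ℂ κ, ‖ξ‖ = 1 → ∑ j, d j * ‖toEuclideanLin (W j) ξ‖ ^ 2 = 1 := by
    intro ξ h
    have := key (fun _ => 1) ξ ξ
    simp only [Matrix.mul_one, hW, toLpLin_one, LinearMap.id_apply] at this
    simp only [← @inner_self_eq_norm_sq ℂ, RCLike.re_to_complex, ← this]
    rw [← RCLike.re_to_complex, inner_self_eq_norm_sq, h, one_pow]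
  rw [l2_opNorm_def]
  refine ContinuousLinearMap.opNorm_le_of_re_inner_le hC fun ξ η h1 h2 => ?_
  change (inner ℂ (toEuclideanLin _ ξ) η).re ≤ C
  rw [key]
  calc _ ≤ ∑ j, (C / 2 * (d j * ‖toEuclideanLin (W j) ξ‖ ^ 2) +
        C / 2 * (d j * ‖toEuclideanLin (W j) η‖ ^ 2)) := Finset.sum_le_sum fun j _ => ?_
    _ = C := by rw [Finset.sum_add_distrib, ← Finset.mul_sum, ← Finset.mul_sum, k1 ξ h1, k1 η h2]; ring
  set u := toEuclideanLin (W j) ξ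
  set v := toEuclideanLin (W j) η
  have a1 : (inner ℂ (toEuclideanLin (X j) u) v).re ≤ ‖toEuclideanLin (X j) u‖ * ‖v‖ :=
    re_inner_le_norm (𝕜 := ℂ) _ _
  have a2 : ‖toEuclideanLin (X j) u‖ ≤ C * ‖u‖ :=
    (l2_opNorm_mulVec (X j) u).trans (mul_le_mul_of_nonneg_right (hX j) (norm_nonneg _))
  have a3 := mul_le_mul_of_nonneg_right a2 (norm_nonneg v)
  have a4 := mul_nonneg hC (sq_nonneg (‖u‖ - ‖v‖))
  have a5 : (inner ℂ (toEuclideanLin (X j) u) v).re ≤ C / 2 * ‖u‖ ^ 2 + C / 2 * ‖v‖ ^ 2 := by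
    nlinarith
  have := mul_le_mul_of_nonneg_left a5 (hd j)
  linarith

theorem norm_conj (X : Matrix ι ι ℂ) : ‖X.map (starRingEnd ℂ)‖ ≤ ‖X‖ := by
  rw [l2_opNorm_def]
  refine ContinuousLinearMap.opNorm_le_bound _ (norm_nonneg _) fun ξ => ?_
  have h : ∀ v : ι → ℂ, ‖(WithLp.toLp 2 (star v) : EuclideanSpace ℂ ι)‖ =
      ‖(WithLp.toLp 2 v : EuclideanSpace ℂ ι)‖ := fun v => by simp [EuclideanSpace.norm_eq]
  have h1 := l2_opNorm_mulVec X (WithLp.toLp 2 (star ξ.ofLp))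
  rw [h] at h1
  refine le_of_eq_of_le ?_ h1
  change ‖(WithLp.toLp 2 (X.map (starRingEnd ℂ) *ᵥ ξ.ofLp) : EuclideanSpace ℂ ι)‖ =
    ‖(WithLp.toLp 2 (X *ᵥ star ξ.ofLp) : EuclideanSpace ℂ ι)‖
  rw [← h]
  congr 2
  ext i
  simp [mulVec, dotProduct]

variable {B : Type} {m : ℕ}

/-- amplification -/
def am (φ : B → Matrix ι ι ℂ) (x : Matrix (Fin m) (Fin m) B) :
    Matrix (Fin m × ι) (Fin m × ι) ℂ := Matrix.of fun p q => φ (x p.1 q.1) p.2 q.2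

omit [Fintype κ] [DecidableEq ι] [DecidableEq κ] in
theorem am_mul (L : Matrix κ ι ℂ) (R : Matrix ι κ ℂ) (ψ : B → Matrix ι ι ℂ)
    (x : Matrix (Fin m) (Fin m) B) : am (fun a => L * ψ a * R) x =
      ((1 : Matrix (Fin m) (Fin m) ℂ) ⊗ₖ L) * am ψ x * ((1 : Matrix (Fin m) (Fin m) ℂ) ⊗ₖ R) := by
  ext p q
  simp [am, Matrix.mul_apply, Fintype.sum_prod_type, one_apply]

theorem kraus (d : J → ℝ) (hd : ∀ j, 0 ≤ d j) (v : J → Matrix ι κ ℂ) (ψ : J → B → Matrix ι ι ℂ)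
    {φ : B → Matrix κ κ ℂ} (x : Matrix (Fin m) (Fin m) B) {C : ℝ} (hC : 0 ≤ C)
    (hX : ∀ j, ‖am (ψ j) x‖ ≤ C) (hv : ∑ j, (d j : ℂ) • ((v j)ᴴ * v j) = 1)
    (hφ : ∀ a, φ a = ∑ j, (d j : ℂ) • ((v j)ᴴ * ψ j a * v j)) : ‖am φ x‖ ≤ C := by
  have := mk d hd (fun j => (1 : Matrix (Fin m) (Fin m) ℂ) ⊗ₖ v j) _ hC hX (by
    simp only [conjTranspose_kronecker, conjTranspose_one, ← mul_kronecker_mul, Matrix.mul_one]
    rw [← one_kronecker_one, ← hv]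
    ext p q
    simp [Matrix.sum_apply, Finset.mul_sum, mul_left_comm])
  refine le_of_eq_of_le (congrArg _ ?_) this
  simp only [conjTranspose_kronecker, conjTranspose_one, ← am_mul]
  ext p q
  simp [am, hφ, Matrix.sum_apply]

theorem kraus1 (v : Matrix ι κ ℂ) (ψ : B → Matrix ι ι ℂ) {φ : B → Matrix κ κ ℂ}
    (x : Matrix (Fin m) (Fin m) B) (hv : vᴴ * v = 1) (hφ : ∀ a, φ a = vᴴ * ψ a * v) :
    ‖am φ x‖ ≤ ‖am ψ x‖ :=
  kraus (J := Unit) (fun _ => 1) (fun _ => zero_le_one) (fun _ => v) (fun _ => ψ) x (norm_nonneg _)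
    (fun _ => le_rfl) (by simpa using hv) (by simpa using hφ)

theorem norm_kron (L : Matrix ι ι ℂ) : ‖(1 : Matrix (Fin m) (Fin m) ℂ) ⊗ₖ L‖ ≤ ‖L‖ :=
  NonUnitalStarAlgHom.norm_apply_le
    ({ toFun := fun L => (1 : Matrix (Fin m) (Fin m) ℂ) ⊗ₖ L
       map_smul' := fun c L => kronecker_smul _ _ _
       map_zero' := kronecker_zero _
       map_add' := fun _ _ => kronecker_add _ _ _
       map_mul' := fun _ _ => by rw [← mul_kronecker_mul, Matrix.mul_one]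
       map_star' := fun _ => by simp [star_eq_conjTranspose, conjTranspose_kronecker] } :
      Matrix ι ι ℂ →⋆ₙₐ[ℂ] Matrix (Fin m × ι) (Fin m × ι) ℂ) L

end

/-- two by two matrices -/
abbrev M2 := Matrix (Fin 2) (Fin 2) ℂ
/-- data type -/
abbrev Dat := ℝ × Fin 4 × ℂ × ℂ × ℂ × ℂ

/-- data -/
noncomputable def L1 : List Dat :=
  [(8923951 / 292612500, 1, 1, 0, 0, 1),
   (8923951 / 292612500, 3, 1, 0, 0, 1),
   (1449157 / 146306250, 0, 0, 1, -1, 0),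
   (1828487 / 58522500, 1, 1, -I, I, 0),
   (1828487 / 58522500, 3, 1, I, -I, 0),
   (1 / 1875, 1, 1 - I, -1, 1 - I, 1),
   (1 / 1875, 3, 1 + I, -1, 1 + I, 1),
   (8767891 / 292612500, 1, 1, -I, 0, 1),
   (8767891 / 292612500, 3, 1, I, 0, 1),
   (5233372 / 73153125, 0, 0, 1, 0, -1),
   (1277011 / 48768750, 0, 1, -1, 1, 1),
   (1 / 1875, 1, 1, -1 - I, 1, 1 + I),
   (1 / 1875, 3, 1, -1 + I, 1, 1 - I),
   (5233372 / 73153125, 0, 1, 0, 1, 0),
   (13839841 / 292612500, 2, 1, 0, 0, -1),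
   (9111223 / 146306250, 2, 1, 1, 0, -1),
   (36833321 / 292612500, 0, 1, 0, 0, 1),
   (8767891 / 292612500, 1, 1, 0, -I, 1),
   (8767891 / 292612500, 3, 1, 0, I, 1),
   (1828487 / 58522500, 1, 0, 1, -1, -I),
   (1828487 / 58522500, 3, 0, 1, -1, I),
   (9111223 / 146306250, 2, 1, 0, 1, -1)]

/-- data -/
noncomputable def L2 : List Dat :=
  [(11341 / 260100, 0, 1, 1, 1, -1),
   (371959 / 6502500, 2, 1, 0, 0, 0),
   (1183487 / 22758750, 1, 1, I, I, 0),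
   (1183487 / 22758750, 3, 1, -I, -I, 0),
   (41677 / 1011500, 0, 1, 0, 1, 0),
   (430883 / 15172500, 1, 1, 1, 1, -1 - I),
   (430883 / 15172500, 3, 1, 1, 1, -1 + I),
   (371959 / 6502500, 2, 0, 0, 0, 1),
   (41677 / 1011500, 0, 0, 1, 0, -1),
   (2858483 / 45517500, 0, 1, 0, 0, -1),
   (6139 / 260100, 1, 0, 1, 1, -I),
   (6139 / 260100, 3, 0, 1, 1, I),
   (491509 / 45517500, 1, 1, 1 + I, 1 + I, -I),
   (491509 / 45517500, 3, 1, 1 - I, 1 - I, I),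
   (2858483 / 45517500, 2, 0, 0, 1, -1),
   (99079 / 5057500, 0, 0, 0, 0, 1),
   (99079 / 5057500, 0, 1, 0, 0, 0),
   (2858483 / 45517500, 2, 1, 1, 0, 0),
   (1996717 / 15172500, 2, 0, 1, -1, 0)]

/-- data -/
noncomputable def L3 : List Dat :=
  [(1 / 200, 0, 7, 1, -1, 7), (1 / 200, 1, 7, -I, -I, 7), (1 / 200, 2, 7, -1, 1, 7),
   (1 / 200, 3, 7, I, I, 7)]

/-- phases -/
def w : Fin 4 → ℂ := ![1, I, -1, -I]
/-- representations -/
def p (z : ℂ) (a : M2) : M2 :=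
  !![a 0 0 - z * a 0 1, a 0 1; z * a 0 0 + a 1 0 - z * (z * a 0 1 + a 1 1), z * a 0 1 + a 1 1]
/-- linear part of alpha -/
noncomputable def γ (a : M2) : M2 :=
  !![17 / 25 * a 0 0 + 8 / 25 * a 1 1, -(102 / 625) * a 1 0;
    1211 / 2601 * a 0 1, 8 / 25 * a 0 0 + 17 / 25 * a 1 1]
/-- theta -/
noncomputable def th (a : M2) : M2 := !![a 0 0, 25 / 51 * a 0 1; 51 / 25 * a 1 0, a 1 1]
/-- Kraus operator -/
def vv (t : Dat) : M2 := !![t.2.2.1, t.2.2.2.1; t.2.2.2.2.1, t.2.2.2.2.2]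
/-- Kraus sum -/
noncomputable def ks (L : List Dat) (a : M2) : M2 :=
  (L.map fun t => (t.1 : ℂ) • ((vv t)ᴴ * p (w t.2.1) a * vv t)).sum

theorem kr (v0 v1 v2 v3 : ℂ) (x : M2) : (!![v0, v1; v2, v3] : M2)ᴴ * x * !![v0, v1; v2, v3] =
    !![star v0 * (x 0 0 * v0 + x 0 1 * v2) + star v2 * (x 1 0 * v0 + x 1 1 * v2),
      star v0 * (x 0 0 * v1 + x 0 1 * v3) + star v2 * (x 1 0 * v1 + x 1 1 * v3);
      star v1 * (x 0 0 * v0 + x 0 1 * v2) + star v3 * (x 1 0 * v0 + x 1 1 * v2),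
      star v1 * (x 0 0 * v1 + x 0 1 * v3) + star v3 * (x 1 0 * v1 + x 1 1 * v3)] := by
  ext i j
  fin_cases i <;> fin_cases j <;> simp [Matrix.mul_apply, Fin.sum_univ_two] <;> ring

set_option maxRecDepth 100000 in
theorem id1 (a : M2) : p 1 (γ a) = ks L1 a := by
  ext i j
  simp only [ks, L1, vv, kr, List.map_cons, List.map_nil, List.sum_cons, List.sum_nil,
    Matrix.add_apply, Matrix.smul_apply, Matrix.zero_apply]
  fin_cases i <;> fin_cases j <;> simp [p, γ, w] <;> ring_nf <;> simp [I_sq, I_pow_four] <;>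
    ring_nf

set_option maxRecDepth 100000 in
theorem id2 (a : M2) : (p 1 (γ a))ᵀ = ks L2 a := by
  ext i j
  simp only [ks, L2, vv, kr, List.map_cons, List.map_nil, List.sum_cons, List.sum_nil,
    Matrix.add_apply, Matrix.smul_apply, Matrix.zero_apply]
  fin_cases i <;> fin_cases j <;> simp [p, γ, w] <;> ring_nf <;> simp [I_sq, I_pow_four] <;>
    ring_nf

theorem id3 (a : M2) : (2⁻¹ : ℂ) • (th a + (th (γ a))ᵀ) = ks L3 a := by
  ext i j
  simp only [ks, L3, vv, kr, List.map_cons, List.map_nil, List.sum_cons, List.sum_nil,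
    Matrix.add_apply, Matrix.smul_apply, Matrix.zero_apply]
  fin_cases i <;> fin_cases j <;> simp [p, γ, w, th] <;> ring_nf <;> simp [I_sq, I_pow_four] <;>
    ring_nf

end Pool.Agent.H.MP_042718_an
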