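import Pool.Agent.H.MP_042718_an.A

set_option autoImplicit false

namespace Pool.Agent.H.MP_042718_an

open Complex Matrix
open scoped Matrix.Norms.L2Operator Kronecker ComplexConjugate

theorem p_one (z : ℂ) : p z 1 = 1 := by
  ext i j
  fin_cases i <;> fin_cases j <;> simp [p]

theorem γ_one : γ 1 = 1 := by
  ext i j
  fin_cases i <;> fin_cases j <;> simp [γ] <;> norm_num

theorem th_one : th 1 = 1 := by
  ext i j
  fin_cases i <;> fin_cases j <;> simp [th]

/-- the faithful representation -/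
noncomputable def P : M2 →ₐ[ℂ] Matrix (Fin 2 × Fin 4) (Fin 2 × Fin 4) ℂ where
  toFun a := blockDiagonal fun k => p (w k) a
  map_one' := by
    simp only [p_one]
    exact blockDiagonal_one
  map_mul' a b := by
    rw [← blockDiagonal_mul]
    congr 1
    ext k i j
    fin_cases i <;> fin_cases j <;> simp [p, Matrix.mul_apply, Fin.sum_univ_two] <;> ring
  map_zero' := by
    rw [← blockDiagonal_zero]
    congr 1
    ext k i j
    fin_cases i <;> fin_cases j <;> simp [p]
  map_add' a b := by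
    rw [← blockDiagonal_add]
    congr 1
    ext k i j
    fin_cases i <;> fin_cases j <;> simp [p] <;> ring
  commutes' c := by
    rw [Algebra.algebraMap_eq_smul_one, Algebra.algebraMap_eq_smul_one, ← blockDiagonal_one,
      ← blockDiagonal_smul]
    congr 1
    ext k i j
    fin_cases i <;> fin_cases j <;> simp [p, mul_comm]

/-- theta as a homomorphism -/
noncomputable def TH : M2 →ₐ[ℂ] M2 where
  toFun := th
  map_one' := th_one
  map_mul' a b := by
    ext i j
    fin_cases i <;> fin_cases j <;> simp [th, Matrix.mul_apply, Fin.sum_univ_two] <;> ring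
  map_zero' := by
    ext i j
    fin_cases i <;> fin_cases j <;> simp [th]
  map_add' a b := by
    ext i j
    fin_cases i <;> fin_cases j <;> simp [th] <;> ring
  commutes' c := by
    ext i j
    fin_cases i <;> fin_cases j <;> simp [th, Algebra.algebraMap_eq_smul_one]

/-- alpha on two by two matrices -/
noncomputable def AL : M2 →ₛₗ[starRingEnd ℂ] M2 where
  toFun a := γ (a.map conj)
  map_add' a b := by
    ext i j
    fin_cases i <;> fin_cases j <;> simp [γ] <;> ring
  map_smul' c a := by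
    ext i j
    fin_cases i <;> fin_cases j <;> simp [γ] <;> ring

/-- block inclusion -/
def Jk (k : Fin 4) : Matrix (Fin 2 × Fin 4) (Fin 2) ℂ :=
  Matrix.of fun q i => if q = (i, k) then 1 else 0

/-- diagonal unitary -/
def D (z : ℂ) : M2 := !![1, 0; 0, z]

variable {B : Type} {m : ℕ} (x : Matrix (Fin m) (Fin m) B) {C : ℝ}

theorem blk_le (f : Fin 4 → B → M2) (k : Fin 4) :
    ‖am (f k) x‖ ≤ ‖am (fun b => blockDiagonal fun k => f k b) x‖ := by
  refine kraus1 (Jk k) _ x ?_ fun a => ?_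
  · ext i j
    simp [Jk, Matrix.mul_apply, one_apply, eq_comm]
  · ext i j
    simp [Jk, Matrix.mul_apply]

theorem le_blk (f : Fin 4 → B → M2) (hC : 0 ≤ C) (h : ∀ k, ‖am (f k) x‖ ≤ C) :
    ‖am (fun b => blockDiagonal fun k => f k b) x‖ ≤ C := by
  refine kraus (fun _ => 1) (fun _ => zero_le_one) (fun k => (Jk k)ᴴ) f x hC h ?_ fun a => ?_
  · ext ⟨i, k⟩ ⟨j, l⟩
    simp [Jk, Matrix.mul_apply, one_apply, Matrix.sum_apply, ite_and, apply_ite conj]
  · ext ⟨i, k⟩ ⟨j, l⟩
    by_cases h : k = l <;> fin_cases j <;> simp [Jk, Matrix.mul_apply, Matrix.sum_apply,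
      blockDiagonal_apply, ite_and, eq_comm, apply_ite conj, h]

theorem ks_le {L : List Dat} (h0 : ∀ t ∈ L, 0 ≤ t.1) (h1 : 1 = ks L 1) (σ : B → M2)
    (hC : 0 ≤ C) (h : ∀ k, ‖am (fun b => p (w k) (σ b)) x‖ ≤ C) :
    ‖am (fun b => ks L (σ b)) x‖ ≤ C := by
  refine kraus (J := Fin L.length) (fun j => L[j.1].1) (fun j => h0 _ (List.getElem_mem _))
    (fun j => vv L[j.1]) _ x hC (fun j => h L[j.1].2.1) ?_ fun a => ?_
  · rw [h1, ks, ← Fin.sum_univ_fun_getElem]
    simp only [p_one, Matrix.mul_one]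
  · rw [ks, ← Fin.sum_univ_fun_getElem]

theorem w_unit (s : Fin 4) : w s * conj (w s) = 1 := by fin_cases s <;> simp [w]

theorem w_add (s k : Fin 4) : w (s + k) = w s * w k := by
  fin_cases s <;> fin_cases k <;> simp [w]

theorem D_ct (z : ℂ) : (D z)ᴴ = D (conj z) := by
  ext i j
  fin_cases i <;> fin_cases j <;> simp [D]

theorem D_mul {y z : ℂ} (h : y * z = 1) : D y * D z = 1 := by
  ext i j
  fin_cases i <;> fin_cases j <;> simp [D, h]

theorem D_conj (y z : ℂ) (a : M2) :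
    D y * a * D z = !![a 0 0, a 0 1 * z; y * a 1 0, y * a 1 1 * z] := by
  ext i j
  fin_cases i <;> fin_cases j <;> simp [D, Matrix.mul_apply, Fin.sum_univ_two, vecMul, dotProduct]

theorem rot (σ : B → M2) (h : ∀ k, ‖am (fun b => p (w k) (σ b)) x‖ ≤ C) (s k : Fin 4) :
    ‖am (fun b => p (w k) (D (conj (w s)) * σ b * D (w s))) x‖ ≤ C := by
  have h1 := w_unit s
  refine (kraus1 (D (w s)) _ x (by rw [D_ct, D_mul (by rw [mul_comm, h1])]) fun a => ?_).trans
    (h (s + k))
  rw [D_ct, w_add, D_conj, D_conj]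
  ext i j
  fin_cases i <;> fin_cases j <;> simp [p] <;> grind

theorem p_rot (s : Fin 4) (a : M2) : p (conj (w s)) (γ a) =
    D (conj (w s)) * p 1 (γ (D (conj (w s)) * a * D (w s))) * D (w s) := by
  have h1 := w_unit s
  rw [D_conj, D_conj]
  ext i j
  fin_cases i <;> fin_cases j <;> simp [p, γ] <;> grind

theorem p_conj (z : ℂ) (a : M2) : p z (AL a) = (p (conj z) (γ a)).map conj := by
  ext i j
  fin_cases i <;> fin_cases j <;> simp [p, γ, AL, map_ofNat]

theorem P_le (σ : B → M2) (k : Fin 4) :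
    ‖am (fun b => p (w k) (σ b)) x‖ ≤ ‖am (fun b => P (σ b)) x‖ :=
  blk_le x (fun k b => p (w k) (σ b)) k

theorem cc1 (σ : B → M2) : ‖am (fun b => P (AL (σ b))) x‖ ≤ ‖am (fun b => P (σ b)) x‖ := by
  refine le_blk x (fun k b => p (w k) (AL (σ b))) (norm_nonneg _) fun s => ?_
  simp only [p_conj]
  refine (norm_conj (am (fun b => p (conj (w s)) (γ (σ b))) x)).trans ?_
  refine (kraus1 (D (w s)) _ x (by rw [D_ct, D_mul (by rw [mul_comm, w_unit])]) fun a => by
    rw [p_rot, D_ct, id1]).trans ?_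
  exact ks_le x (by simp [L1]; norm_num) (by rw [← id1, γ_one, p_one]) _ (norm_nonneg _)
    (rot x σ (P_le x σ) s)

theorem cc2 (σ : B → M2) : ‖am (fun b => (P (AL (σ b)))ᴴ) x‖ ≤ ‖am (fun b => P (σ b)) x‖ := by
  have : ∀ a, (P (AL a))ᴴ = blockDiagonal fun k => (p (conj (w k)) (γ a))ᵀ := by
    intro a
    change (blockDiagonal _)ᴴ = _
    rw [blockDiagonal_conjTranspose]
    congr 1
    ext k i j
    simp [p_conj]
  simp only [this]
  refine le_blk x (fun k b => (p (conj (w k)) (γ (σ b)))ᵀ) (norm_nonneg _) fun s => ?_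
  have hD : ∀ z, (D z)ᵀ = D z := fun z => by
    ext i j
    fin_cases i <;> fin_cases j <;> simp [D]
  refine (kraus1 (D (conj (w s))) (fun b => ks L2 (D (conj (w s)) * σ b * D (w s))) x
    (by rw [D_ct, conj_conj, D_mul (w_unit s)]) fun a => by
      rw [p_rot, D_ct, conj_conj, transpose_mul, transpose_mul, hD, hD, id2,
        Matrix.mul_assoc (D (w s))]).trans ?_
  exact ks_le x (by simp [L2]; norm_num) (by rw [← id2, γ_one, p_one, transpose_one]) _
    (norm_nonneg _) (rot x σ (P_le x σ) s)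

theorem cc3 (σ : B → M2) : ‖am (fun b => (2⁻¹ : ℂ) • (TH (σ b) + (TH (AL (σ b)))ᴴ)) x‖ ≤
    ‖am (fun b => P (σ b)) x‖ := by
  have : ∀ a, (2⁻¹ : ℂ) • (TH a + (TH (AL a))ᴴ) = ks L3 a := by
    intro a
    rw [← id3]
    congr 2
    ext i j
    fin_cases i <;> fin_cases j <;> simp [TH, AL, th, γ]
  simp only [this]
  refine ks_le x (by simp [L3]) ?_ _ (norm_nonneg _) (P_le x σ)
  rw [← id3, γ_one, th_one, transpose_one, ← two_smul ℂ, smul_smul]
  simp

theorem cb : ∃ c : ℝ, ∀ (B : Type) (m : ℕ) (x : Matrix (Fin m) (Fin m) B) (σ : B → M2),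
    ‖am (fun b => TH (σ b)) x‖ ≤ c * ‖am (fun b => P (σ b)) x‖ := by
  let L : M2 := !![1, 0; -(51 / 25), 51 / 25]
  let R : M2 := !![1, 0; 1, 25 / 51]
  refine ⟨‖L‖ * ‖R‖, fun B m x σ => ?_⟩
  have : ∀ a, TH a = L * p (w 0) a * R := by
    intro a
    ext i j
    fin_cases i <;> fin_cases j <;> simp [TH, th, p, w, L, R, Matrix.mul_apply, Fin.sum_univ_two] <;>
      ring
  simp only [this, am_mul]
  refine (norm_mul₃_le).trans ?_
  rw [mul_right_comm]
  gcongr
  exacts [norm_kron _, norm_kron _, P_le x σ 0]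

theorem big : 2 * ‖am (fun b => P b) !![!![0, 0; 1, 0]]‖ < ‖am (fun b => TH b) !![!![0, 0; 1, 0]]‖ := by
  have e2 : am (fun b => TH b) !![!![0, 0; 1, 0]] =
      (51 / 25 : ℂ) • am (fun b => p 1 b) !![!![0, 0; 1, 0]] := by
    ext ⟨a, i⟩ ⟨b, j⟩
    fin_cases a; fin_cases b
    fin_cases i <;> fin_cases j <;> simp [am, p, TH, th]
  have e3 : ‖am (fun b => P b) !![!![0, 0; 1, 0]]‖ ≤ ‖am (fun b => p 1 b) !![!![0, 0; 1, 0]]‖ := by
    refine le_blk _ (fun k b => p (w k) b) (norm_nonneg _) fun k => le_of_eq (congrArg _ ?_)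
    ext ⟨a, i⟩ ⟨b, j⟩
    fin_cases a; fin_cases b
    fin_cases i <;> fin_cases j <;> simp [am, p]
  have e4 : 0 < ‖am (fun b => p 1 b) !![!![0, 0; 1, 0]]‖ := norm_pos_iff.2 fun h => by
    simpa [am, p] using congrFun (congrFun h (0, 1)) (0, 0)
  rw [e2, norm_smul, show ‖(51 / 25 : ℂ)‖ = 51 / 25 by simp]
  linarith

end Pool.Agent.H.MP_042718_an
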